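import Pool.Agent.T9h87.Lin.Spec
import Pool.Agent.Results.MP_c5a51c_co.PolyhedralCounterexample

/-! # The complex does not embed in the plane -/

set_option autoImplicit false

namespace Pool.Agent.T9h73.Lin

open Pool.Agent.T9h87.Lin
open Pool.Agent.Results.MP_c5a51c_co.PolyhedralCounterexample (no_sphere_embedding)

/-- the one-norm -/
noncomputable def on (u : E3) : ℝ := |u 0| + |u 1| + |u 2|

/-- the positive or the negative part of a coordinate -/
noncomputable def part (u : E3) (i : Fin 3) : Bool → ℝ
  | true => max (u i) 0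
  | false => max (-u i) 0

/-- the map from the sphere to the octahedron -/
noncomputable def oct {W : Type} (u : E3) : W ⊕ Fin 3 × Bool → ℝ
  | .inl _ => 0
  | .inr (i, b) => part u i b / on u

theorem on_cont : Continuous on := by
  unfold on; fun_prop

theorem part_cont (i : Fin 3) (b : Bool) : Continuous fun u => part u i b := by
  cases b <;> simp only [part] <;> fun_prop

theorem part_nonneg (u : E3) (i : Fin 3) (b : Bool) : 0 ≤ part u i b := by
  cases b <;> simp [part]

theorem part_add (u : E3) (i : Fin 3) : part u i true + part u i false = |u i| := by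
  simp only [part]
  rcases le_total 0 (u i) with h | h
  · rw [max_eq_left h, max_eq_right (by linarith), abs_of_nonneg h]; ring
  · rw [max_eq_right h, max_eq_left (by linarith), abs_of_nonpos h]; ring

theorem part_sub (u : E3) (i : Fin 3) : part u i true - part u i false = u i := by
  simp only [part]
  rcases le_total 0 (u i) with h | h
  · rw [max_eq_left h, max_eq_right (by linarith)]; ring
  · rw [max_eq_right h, max_eq_left (by linarith)]; ring

theorem part_mul (u : E3) (i : Fin 3) : part u i true * part u i false = 0 := by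
  simp only [part]
  rcases le_total 0 (u i) with h | h
  · rw [max_eq_right (a := -u i) (by linarith)]; ring
  · rw [max_eq_right (a := u i) h]; ring

theorem on_nonneg (u : E3) : 0 ≤ on u := by unfold on; positivity

theorem on_pos {u : E3} (hu : u ≠ 0) : 0 < on u := by
  refine lt_of_le_of_ne (on_nonneg u) fun h => hu ?_
  unfold on at h
  have h0 := abs_nonneg (u 0)
  have h1 := abs_nonneg (u 1)
  have h2 := abs_nonneg (u 2)
  have e0 : u 0 = 0 := abs_eq_zero.1 (by linarith)
  have e1 : u 1 = 0 := abs_eq_zero.1 (by linarith)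
  have e2 : u 2 = 0 := abs_eq_zero.1 (by linarith)
  ext i
  fin_cases i
  · exact e0
  · exact e1
  · exact e2

theorem ne_zero_of_sphere {u : E3} (hu : u ∈ Metric.sphere (0 : E3) 1) : u ≠ 0 := by
  rintro rfl
  simp at hu

theorem oct_mem {W : Type} [Fintype W] (H : Finset (Finset W)) {u : E3} (hu : u ≠ 0) :
    (oct u : W ⊕ Fin 3 × Bool → ℝ) ∈ KK (Mx H) := by
  classical
  have hp := on_pos hu
  have hs : ∑ i : W ⊕ Fin 3 × Bool, oct u i = 1 := by
    rw [Fintype.sum_sum_type]
    simp only [oct, Finset.sum_const_zero, zero_add]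
    rw [Fintype.sum_prod_type]
    have : ∀ i : Fin 3, ∑ b : Bool, part u i b / on u = |u i| / on u := by
      intro i
      rw [Fintype.sum_bool, ← add_div, part_add]
    simp only [this]
    rw [Fin.sum_univ_three, ← add_div, ← add_div]
    exact div_self hp.ne'
  refine ⟨Finset.univ.filter fun i => (oct u : W ⊕ Fin 3 × Bool → ℝ) i ≠ 0, ?_, ?_, hs, ?_⟩
  · unfold Mx
    rw [Finset.mem_filter]
    refine ⟨Finset.mem_univ _, ?_, .inr (.inr ⟨?_, ?_⟩)⟩
    · by_contra hne
      rw [Finset.not_nonempty_iff_eq_empty, Finset.filter_eq_empty_iff] at hne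
      have : ∑ i : W ⊕ Fin 3 × Bool, (oct u : W ⊕ Fin 3 × Bool → ℝ) i = 0 :=
        Finset.sum_eq_zero fun i hi => not_not.1 (hne hi)
      rw [this] at hs
      exact zero_ne_one hs
    · rintro (w | y) hx
      · exact absurd rfl (Finset.mem_filter.1 hx).2
      · exact ⟨y, rfl⟩
    · rintro i ⟨h1, h2⟩
      rw [Finset.mem_filter] at h1 h2
      have := part_mul u i
      simp only [oct] at h1 h2
      rcases mul_eq_zero.1 this with h | h
      · exact h1.2 (by rw [h, zero_div])
      · exact h2.2 (by rw [h, zero_div])
  · rintro (w | ⟨i, b⟩)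
    · exact le_rfl
    · exact div_nonneg (part_nonneg u i b) hp.le
  · intro i hi
    simpa using hi

theorem oct_inj {W : Type} {u v : E3} (hu : u ∈ Metric.sphere (0 : E3) 1)
    (hv : v ∈ Metric.sphere (0 : E3) 1)
    (h : (oct u : W ⊕ Fin 3 × Bool → ℝ) = oct v) : u = v := by
  have hu0 := on_pos (ne_zero_of_sphere hu)
  have hv0 := on_pos (ne_zero_of_sphere hv)
  have key : ∀ i, u i / on u = v i / on v := by
    intro i
    have h1 := congrFun h (.inr (i, true))
    have h2 := congrFun h (.inr (i, false))
    simp only [oct] at h1 h2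
    rw [← part_sub u i, ← part_sub v i, sub_div, sub_div, h1, h2]
  have e : u = (on u / on v) • v := by
    ext i
    have := key i
    rw [PiLp.smul_apply, smul_eq_mul]
    field_simp at this ⊢
    linarith
  have hn : ‖u‖ = (on u / on v) * ‖v‖ := by
    conv_lhs => rw [e]
    rw [norm_smul, Real.norm_of_nonneg (div_nonneg hu0.le hv0.le)]
  rw [mem_sphere_zero_iff_norm] at hu hv
  rw [hu, hv, mul_one] at hn
  rw [e, ← hn, one_smul]

/-- (I) -/
theorem stLow : StLow := by
  intro W _ H h hc hinj
  refine no_sphere_embedding (fun u => h (oct u)) ?_ ?_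
  · refine hc.comp ?_ fun u hu => oct_mem H (ne_zero_of_sphere hu)
    refine continuousOn_pi.2 ?_
    rintro (w | ⟨i, b⟩)
    · exact continuousOn_const
    · exact (part_cont i b).continuousOn.div on_cont.continuousOn fun u hu =>
        (on_pos (ne_zero_of_sphere hu)).ne'
  · intro u hu v hv huv
    exact oct_inj hu hv (hinj (oct_mem H (ne_zero_of_sphere hu)) (oct_mem H (ne_zero_of_sphere hv))
      huv)

end Pool.Agent.T9h73.Lin
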