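import Pool.Agent.T9h87.Lin.Spec

/-! # Points on the moment curve of five-space -/

set_option autoImplicit false

namespace Pool.Agent.T9h73.Lin

open Pool.Agent.T9h87.Lin

/-- the functional with the coefficients `1`, ..., `5` of the polynomial -/
noncomputable def mf (P : Polynomial ℝ) : E5 →ₗ[ℝ] ℝ where
  toFun x := ∑ k : Fin 5, P.coeff ((k : ℕ) + 1) * x k
  map_add' x y := by
    simp only [PiLp.add_apply, mul_add, Finset.sum_add_distrib]
  map_smul' r x := by
    simp only [PiLp.smul_apply, smul_eq_mul, RingHom.id_apply, Finset.mul_sum]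
    exact Finset.sum_congr rfl fun k _ => by ring

/-- (J1) -/
theorem stMom : StMom := by
  classical
  intro ι _
  refine ⟨fun i => ((Fintype.equivFin ι i : ℕ) : ℝ),
    fun i => WithLp.toLp 2 fun k : Fin 5 => ((Fintype.equivFin ι i : ℕ) : ℝ) ^ ((k : ℕ) + 1),
    ?_, ?_⟩
  · intro i j h
    have h1 : (Fintype.equivFin ι i : ℕ) = Fintype.equivFin ι j := Nat.cast_injective h
    exact (Fintype.equivFin ι).injective (Fin.ext h1)
  · intro P hP
    refine ⟨mf P, -P.coeff 0, fun i => ?_⟩
    rw [Polynomial.eval_eq_sum_range' (Nat.lt_succ_of_le hP), Finset.sum_range_succ']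
    show (∑ k : Fin 5, P.coeff ((k : ℕ) + 1) * ((Fintype.equivFin ι i : ℕ) : ℝ) ^ ((k : ℕ) + 1)) -
      -P.coeff 0 = _
    rw [Fin.sum_univ_eq_sum_range (fun k => P.coeff (k + 1) *
      ((Fintype.equivFin ι i : ℕ) : ℝ) ^ (k + 1)) 5]
    simp

end Pool.Agent.T9h73.Lin
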